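import Pool.Agent.Q182.UQ.Whole

set_option autoImplicit false

namespace Pool.Agent.Q182.UQ

open Pool.Agent.H721R2 Pool.Agent.H779R2.An Pool.Agent.Q130.UQ Filter Topology

variable {X E : Type*} [MetricSpace X] [CompactSpace X] [NormedAddCommGroup E] [NormedSpace ℝ E]

theorem minEx (S : HypSys X E) : SMinEx S := by
  intro Λ hΛ
  obtain ⟨m, hmΛ, hm⟩ := zorn_superset_nonempty {L : Set X | USat S L} (by
    intro c hc hch hcn
    refine ⟨⋂₀ c, ⟨?_, ?_, ?_, ?_, ?_⟩, fun s hs => Set.sInter_subset_of_mem hs⟩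
    · exact isClosed_sInter fun s hs => (hc hs).closed
    · have hdir : DirectedOn (fun a b : Set X => b ⊆ a) c := by
        intro a ha b hb
        rcases hch.total ha hb with h | h
        · exact ⟨a, ha, subset_rfl, h⟩
        · exact ⟨b, hb, h, subset_rfl⟩
      exact IsCompact.nonempty_sInter_of_directed_nonempty_isCompact_isClosed (hS := hcn.to_subtype) hdir
        (fun s hs => (hc hs).nonempty) (fun s hs => (hc hs).closed.isCompact)
        (fun s hs => (hc hs).closed)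
    · intro x hx s hs
      exact (hc hs).map x (hx s hs)
    · intro x hx s hs
      exact (hc hs).map' x (hx s hs)
    · intro x hx y hxy s hs
      exact (hc hs).sat x (hx s hs) y hxy) Λ hΛ
  refine ⟨m, hmΛ, ⟨hm.prop, fun Λ' h' hsub => ?_⟩⟩
  exact Set.Subset.antisymm hsub (hm.le_of_le h' hsub)

/-- the limit set of small unstable discs around `y` -/
def Lim (S : HypSys X E) (y : X) : Set X :=
  {z | ∀ ε > 0, ∀ m : ℕ, ∃ n ≥ m, ∃ w, S.URel ε y w ∧ dist (S.g^[n] w) z ≤ ε}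

theorem URel_refl (S : HypSys X E) {ε : ℝ} (hε : 0 < ε) (y : X) : S.URel ε y y := by
  intro k
  rw [dist_self]
  exact hε.le

theorem lim_sat (S : HypSys X E) (y : X) : USat S (Lim S y) := by
  refine ⟨?_, ?_, ?_, ?_, ?_⟩
  · rw [← isOpen_compl_iff, Metric.isOpen_iff]
    intro z hz
    have hz' : ¬ ∀ ε > 0, ∀ m : ℕ, ∃ n ≥ m, ∃ w, S.URel ε y w ∧ dist (S.g^[n] w) z ≤ ε := hz
    push Not at hz'
    obtain ⟨ε, hε, m, hm⟩ := hz'
    refine ⟨ε / 2, half_pos hε, fun z' hz' hc => ?_⟩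
    obtain ⟨n, hn, w, hw, hd⟩ := hc (ε / 2) (half_pos hε) m
    have h1 := hm n hn w (hw.mono (by linarith))
    rw [Metric.mem_ball] at hz'
    have := dist_triangle (S.g^[n] w) z' z
    linarith
  · obtain ⟨a, φ, hφ, hta⟩ := CompactSpace.tendsto_subseq (fun n : ℕ => S.g^[n] y)
    refine ⟨a, fun ε hε m => ?_⟩
    obtain ⟨N, hN⟩ := Metric.tendsto_atTop.1 hta ε hε
    refine ⟨φ (max N m), (le_max_right N m).trans hφ.le_apply, y, URel_refl S hε y, ?_⟩
    exact (hN _ (le_max_left _ _)).le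
  · intro z hz ε hε m
    obtain ⟨δ, hδ, huc⟩ := Metric.uniformContinuous_iff.1
      (CompactSpace.uniformContinuous_of_continuous S.g.continuous) ε hε
    obtain ⟨n, hn, w, hw, hd⟩ := hz (min ε (δ / 2)) (lt_min hε (half_pos hδ)) m
    refine ⟨n + 1, by omega, w, hw.mono (min_le_left _ _), ?_⟩
    rw [Function.iterate_succ_apply']
    refine (huc (lt_of_le_of_lt (hd.trans (min_le_right _ _)) ?_)).le
    linarith
  · intro z hz ε hε m
    obtain ⟨δ, hδ, huc⟩ := Metric.uniformContinuous_iff.1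
      (CompactSpace.uniformContinuous_of_continuous S.g.symm.continuous) ε hε
    obtain ⟨n, hn, w, hw, hd⟩ := hz (min ε (δ / 2)) (lt_min hε (half_pos hδ)) (m + 1)
    obtain ⟨k, rfl⟩ : ∃ k, n = k + 1 := ⟨n - 1, by omega⟩
    refine ⟨k, by omega, w, hw.mono (min_le_left _ _), ?_⟩
    have h1 := huc (lt_of_le_of_lt (hd.trans (min_le_right _ _)) (show δ / 2 < δ by linarith))
    rw [Function.iterate_succ_apply', Homeomorph.symm_apply_apply] at h1
    exact h1.le
  · intro z hz z' hzz ε hε m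
    obtain ⟨δ, hδ, hb⟩ := exists_bracket S (ε / 2) (half_pos hε)
    obtain ⟨k, hk⟩ := hzz.eventually (half_pos hδ)
    have hkk := (hk k le_rfl).dist_le
    obtain ⟨η, hη, huc⟩ := Metric.uniformContinuous_iff.1
      (CompactSpace.uniformContinuous_of_continuous (S.g.symm.continuous.iterate k)) (δ / 2)
      (half_pos hδ)
    obtain ⟨n, hn, w, hw, hd⟩ := hz (min (ε / 2) (η / 2)) (lt_min (half_pos hε) (half_pos hη))
      (m + k)
    have h1 := huc (lt_of_le_of_lt (hd.trans (min_le_right _ _)) (show η / 2 < η by linarith))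
    rw [symm_iter_iter_le S (by omega : k ≤ n)] at h1
    have h2 : dist (S.g.symm^[k] z') (S.g^[n - k] w) ≤ δ := by
      have := dist_triangle (S.g.symm^[k] z') (S.g.symm^[k] z) (S.g^[n - k] w)
      rw [dist_comm (S.g.symm^[k] z') (S.g.symm^[k] z),
        dist_comm (S.g.symm^[k] z) (S.g^[n - k] w)] at this
      linarith
    obtain ⟨v, hv1, hv2⟩ := hb _ _ h2
    have h3 : S.URel (ε / 2) (S.g.symm^[n - k] v) w := by
      have := hv2.iter (n - k)
      rwa [iter_symm_iter] at this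
    refine ⟨n, by omega, S.g.symm^[n - k] v, ?_, ?_⟩
    · have h4 := (hw.mono (min_le_left _ _)).trans h3.symm
      rwa [add_halves] at h4
    · have h5 : S.g^[n] (S.g.symm^[n - k] v) = S.g^[k] v := by
        rw [iter_symm_iter_ge S (by omega : n - k ≤ n)]
        congr 1
        omega
      rw [h5]
      have h6 := (hv1.iter k).dist_le
      rw [iter_iter_symm, dist_comm] at h6
      linarith

theorem lim_sub (S : HypSys X E) {ε₀ : ℝ} (hG : Geo S ε₀) {Λ : Set X} (hΛ : USat S Λ) {x₀ : X}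
    (hx : x₀ ∈ Λ) : Lim S x₀ ⊆ Λ := by
  intro z hz
  rw [← hΛ.closed.closure_eq, Metric.mem_closure_iff]
  intro ε hε
  obtain ⟨n, -, w, hw, hd⟩ := hz (min (ε / 2) ε₀) (lt_min (half_pos hε) hG.pos) 0
  refine ⟨S.g^[n] w, USat.iter hΛ (hΛ.sat _ hx _ (hG.uasym _ _ (hw.mono (min_le_right _ _)))) n, ?_⟩
  rw [dist_comm]
  have := hd.trans (min_le_left _ _)
  linarith

theorem reach (S : HypSys X E) {ε₀ : ℝ} (hG : Geo S ε₀) : SReach S := by
  intro Λ hΛ x₀ hx₀ ε hε ε₁ hε₁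
  have hK : Lim S x₀ = Λ := hΛ.min _ (lim_sat S x₀) (lim_sub S hG hΛ.toUSat hx₀)
  refine hΛ.closed.isCompact.induction_on (p := fun s => ∃ s₀ : ℕ, ∀ x ∈ s,
    ∃ z, ∃ s ≤ s₀, S.URel ε x₀ z ∧ dist (S.g^[s] z) x ≤ ε₁) ?_ ?_ ?_ ?_
  · exact ⟨0, fun x hx => absurd hx (Set.notMem_empty x)⟩
  · rintro s t hst ⟨s₀, h⟩
    exact ⟨s₀, fun x hx => h x (hst hx)⟩
  · rintro s t ⟨s₀, h⟩ ⟨t₀, h'⟩
    refine ⟨max s₀ t₀, ?_⟩
    rintro x (hx | hx)
    · obtain ⟨z, k, hk, h1⟩ := h x hx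
      exact ⟨z, k, hk.trans (le_max_left _ _), h1⟩
    · obtain ⟨z, k, hk, h1⟩ := h' x hx
      exact ⟨z, k, hk.trans (le_max_right _ _), h1⟩
  · intro x hx
    rw [← hK] at hx
    obtain ⟨n, -, w, hw, hd⟩ := hx (min ε (ε₁ / 2)) (lt_min hε (half_pos hε₁)) 0
    refine ⟨Metric.ball x (ε₁ / 2), mem_nhdsWithin_of_mem_nhds
      (Metric.ball_mem_nhds _ (half_pos hε₁)), n, fun x' hx' => ?_⟩
    refine ⟨w, n, le_rfl, hw.mono (min_le_left _ _), ?_⟩
    rw [Metric.mem_ball, dist_comm] at hx'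
    have h1 := hd.trans (min_le_right _ _)
    have := dist_triangle (S.g^[n] w) x x'
    linarith

theorem min_disj (S : HypSys X E) {Λ Λ' : Set X} (h : UMin S Λ) (h' : UMin S Λ') (hne : Λ' ≠ Λ) :
    ∀ a ∈ Λ, ∀ v ∈ Λ', ¬ SAsym S a v := by
  intro a ha v hv hs
  obtain ⟨p, φ, hφ, hp⟩ := CompactSpace.tendsto_subseq (fun n : ℕ => S.g^[n] a)
  have hp' : Tendsto (fun n => S.g^[φ n] v) atTop (𝓝 p) := by
    have h1 : Tendsto (fun n => dist (S.g^[φ n] a) (S.g^[φ n] v)) atTop (𝓝 0) :=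
      hs.comp hφ.tendsto_atTop
    exact (tendsto_iff_of_dist h1).1 hp
  have h1 : p ∈ Λ := h.closed.mem_of_tendsto hp
    (Eventually.of_forall fun n => USat.iter h.toUSat ha (φ n))
  have h2 : p ∈ Λ' := h'.closed.mem_of_tendsto hp'
    (Eventually.of_forall fun n => USat.iter h'.toUSat hv (φ n))
  have h3 : USat S (Λ ∩ Λ') := by
    refine ⟨h.closed.inter h'.closed, ⟨p, h1, h2⟩, ?_, ?_, ?_⟩
    · rintro x ⟨hx, hx'⟩
      exact ⟨h.map x hx, h'.map x hx'⟩
    · rintro x ⟨hx, hx'⟩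
      exact ⟨h.map' x hx, h'.map' x hx'⟩
    · rintro x ⟨hx, hx'⟩ y hxy
      exact ⟨h.sat x hx y hxy, h'.sat x hx' y hxy⟩
  have h4 := h.min _ h3 Set.inter_subset_left
  have h5 := h'.min _ h3 Set.inter_subset_right
  exact hne (h5.symm.trans h4)

theorem enter (S : HypSys X E) {ε₀ : ℝ} (hG : Geo S ε₀) (h : SMinEx S) : SEnter S := by
  intro Λ hΛ x₀ hx₀ ε hε ε₁ hε₁
  have key : ∃ t₀ : ℕ, ∀ y ∈ (Set.univ : Set X), (∀ z, S.URel ε y z → z ∈ Ws S Λ) →
      ∃ z, ∃ t ≤ t₀, S.URel ε y z ∧ dist (S.g^[t] z) x₀ ≤ ε₁ := by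
    refine isCompact_univ.induction_on (p := fun s => ∃ t₀ : ℕ, ∀ y ∈ s,
      (∀ z, S.URel ε y z → z ∈ Ws S Λ) →
      ∃ z, ∃ t ≤ t₀, S.URel ε y z ∧ dist (S.g^[t] z) x₀ ≤ ε₁) ?_ ?_ ?_ ?_
    · exact ⟨0, fun x hx => absurd hx (Set.notMem_empty x)⟩
    · rintro s t hst ⟨s₀, h⟩
      exact ⟨s₀, fun x hx => h x (hst hx)⟩
    · rintro s t ⟨s₀, h⟩ ⟨t₀, h'⟩
      refine ⟨max s₀ t₀, ?_⟩
      rintro x (hx | hx) hyp
      · obtain ⟨z, k, hk, h1⟩ := h x hx hyp
        exact ⟨z, k, hk.trans (le_max_left _ _), h1⟩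
      · obtain ⟨z, k, hk, h1⟩ := h' x hx hyp
        exact ⟨z, k, hk.trans (le_max_right _ _), h1⟩
    · intro y _
      obtain ⟨Λ', hsub, hΛ'⟩ := h _ (lim_sat S y)
      by_cases hne : Λ' = Λ
      · subst hne
        obtain ⟨δ, hδ, hb⟩ := exists_bracket S (min ε (ε₁ / 2)) (lt_min hε (half_pos hε₁))
        obtain ⟨t, -, z, hz, hd⟩ := hsub hx₀ (min (δ / 2) (ε₁ / 2))
          (lt_min (half_pos hδ) (half_pos hε₁)) 0
        refine ⟨Metric.ball y (δ / 2), mem_nhdsWithin_of_mem_nhds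
          (Metric.ball_mem_nhds _ (half_pos hδ)), t, fun y' hy' _ => ?_⟩
        rw [Metric.mem_ball, dist_comm] at hy'
        have h1 : dist z y' ≤ δ := by
          have h2 := (hz.mono (min_le_left _ _)).dist_le
          have := dist_triangle z y y'
          rw [dist_comm z y] at this
          linarith
        obtain ⟨w, hw1, hw2⟩ := hb _ _ h1
        refine ⟨w, t, le_rfl, (hw2.mono (min_le_left _ _)).symm, ?_⟩
        have h3 := (hw1 t).trans (min_le_right _ _)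
        have h4 := hd.trans (min_le_right _ _)
        have := dist_triangle (S.g^[t] w) (S.g^[t] z) x₀
        rw [dist_comm (S.g^[t] w) (S.g^[t] z)] at this
        linarith
      · obtain ⟨x', hx'⟩ := hΛ'.nonempty
        obtain ⟨δ1, hδ1, hb1⟩ := exists_bracket S ε₀ hG.pos
        obtain ⟨δ, hδ, hb⟩ := exists_bracket S (min ε (δ1 / 2)) (lt_min hε (half_pos hδ1))
        obtain ⟨t, -, z, hz, hd⟩ := hsub hx' (min (δ / 2) (δ1 / 2))
          (lt_min (half_pos hδ) (half_pos hδ1)) 0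
        refine ⟨Metric.ball y (δ / 2), mem_nhdsWithin_of_mem_nhds
          (Metric.ball_mem_nhds _ (half_pos hδ)), t, fun y' hy' hyp => ?_⟩
        exfalso
        rw [Metric.mem_ball, dist_comm] at hy'
        have h1 : dist z y' ≤ δ := by
          have h2 := (hz.mono (min_le_left _ _)).dist_le
          have := dist_triangle z y y'
          rw [dist_comm z y] at this
          linarith
        obtain ⟨w, hw1, hw2⟩ := hb _ _ h1
        have h3 : dist (S.g^[t] w) x' ≤ δ1 := by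
          have h3 := (hw1 t).trans (min_le_right _ _)
          have h4 := hd.trans (min_le_right _ _)
          have := dist_triangle (S.g^[t] w) (S.g^[t] z) x'
          rw [dist_comm (S.g^[t] w) (S.g^[t] z)] at this
          linarith
        obtain ⟨v, hv1, hv2⟩ := hb1 _ _ h3
        have hvΛ' : v ∈ Λ' := hΛ'.sat _ hx' _ (hG.uasym _ _ hv2).symm
        obtain ⟨x, hx, hxw⟩ := hyp w (hw2.mono (min_le_left _ _)).symm
        exact min_disj S hΛ hΛ' hne (S.g^[t] x) (USat.iter hΛ.toUSat hx t) v hvΛ'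
          ((hxw.iter t).trans (hG.sasym _ _ hv1))
  obtain ⟨t₀, ht₀⟩ := key
  exact ⟨t₀, fun y hy => ht₀ y (Set.mem_univ y) hy⟩

end Pool.Agent.Q182.UQ
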