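import Pool.Agent.Q130.UQ.Defs

set_option autoImplicit false

namespace Pool.Agent.Q182.UQ

open Pool.Agent.H721R2 Pool.Agent.H779R2.An Pool.Agent.Q130.UQ Filter Topology

variable {X E : Type*} [MetricSpace X] [CompactSpace X] [NormedAddCommGroup E] [NormedSpace ℝ E]

theorem trans (S : HypSys X E) (h : SReach S) : STrans S := by
  intro hmin U V hU hUn hV hVn
  obtain ⟨x0, hx0⟩ := hUn
  obtain ⟨x, hx⟩ := hVn
  obtain ⟨r, hr, hrU⟩ := Metric.isOpen_iff.1 hU x0 hx0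
  obtain ⟨r', hr', hrV⟩ := Metric.isOpen_iff.1 hV x hx
  obtain ⟨s0, hs0⟩ := h Set.univ hmin x0 (Set.mem_univ _) (r / 2) (by positivity) (r' / 2)
    (by positivity)
  obtain ⟨z, s, -, hz, hd⟩ := hs0 x (Set.mem_univ _)
  refine ⟨s, S.g^[s] z, ⟨z, hrU ?_, rfl⟩, hrV ?_⟩
  · rw [Metric.mem_ball, dist_comm]
    have := hz.dist_le
    linarith
  · rw [Metric.mem_ball]
    linarith

theorem USat.iter {S : HypSys X E} {Λ : Set X} (h : USat S Λ) {x : X} (hx : x ∈ Λ) (n : ℕ) :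
    S.g^[n] x ∈ Λ := by
  induction n with
  | zero => exact hx
  | succ n ih =>
    rw [Function.iterate_succ_apply']
    exact h.map _ ih

theorem USat.symm_iter {S : HypSys X E} {Λ : Set X} (h : USat S Λ) {x : X} (hx : x ∈ Λ) (n : ℕ) :
    S.g.symm^[n] x ∈ Λ := by
  induction n with
  | zero => exact hx
  | succ n ih =>
    rw [Function.iterate_succ_apply']
    exact h.map' _ ih

theorem whole [PreconnectedSpace X] (S : HypSys X E) {ε₀ : ℝ} (hG : Geo S ε₀) : SWhole S := by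
  intro Λ hΛ hW
  obtain ⟨δ0, hδ0, hb0⟩ := exists_bracket S ε₀ hG.pos
  have hopen : IsOpen (Ws S Λ) := by
    rw [Metric.isOpen_iff]
    intro y hy
    refine ⟨δ0, hδ0, fun y' hy' => ?_⟩
    rw [Metric.mem_ball] at hy'
    obtain ⟨v, h1, h2⟩ := hb0 y' y hy'.le
    obtain ⟨x, hx, hxv⟩ := hW y hy v (hG.uasym _ _ h2).symm
    exact ⟨x, hx, hxv.trans (hG.sasym _ _ h1).symm⟩
  have hclosed : IsClosed (Ws S Λ) := by
    rw [← isOpen_compl_iff, Metric.isOpen_iff]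
    intro y hy
    refine ⟨δ0, hδ0, fun y' hy' => ?_⟩
    rw [Metric.mem_ball, dist_comm] at hy'
    intro hy'W
    obtain ⟨v, h1, h2⟩ := hb0 y y' hy'.le
    obtain ⟨x, hx, hxv⟩ := hW y' hy'W v (hG.uasym _ _ h2).symm
    exact hy ⟨x, hx, hxv.trans (hG.sasym _ _ h1).symm⟩
  have huniv : Ws S Λ = Set.univ := by
    rcases isClopen_iff.1 ⟨hclosed, hopen⟩ with h | h
    · obtain ⟨x, hx⟩ := hΛ.nonempty
      have : x ∈ Ws S Λ := ⟨x, hx, SAsym.refl S x⟩
      rw [h] at this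
      exact absurd this (Set.notMem_empty x)
    · exact h
  rw [Set.eq_univ_iff_forall]
  intro z
  rw [← hΛ.closed.closure_eq, Metric.mem_closure_iff]
  intro ε hε
  obtain ⟨δ, hδ, hb⟩ := exists_bracket S (min (ε / 2) ε₀) (lt_min (by positivity) hG.pos)
  have key : ∀ w : X, ∃ n : ℕ, ∀ᶠ w' in 𝓝 w, ∃ v ∈ Λ, S.SRel (ε / 2) v (S.g^[n] w') := by
    intro w
    have hw : w ∈ Ws S Λ := by rw [huniv]; exact Set.mem_univ w
    obtain ⟨x, hx, hxw⟩ := hw
    obtain ⟨n, hn⟩ := hxw.eventually (half_pos hδ)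
    refine ⟨n, ?_⟩
    have hc : ContinuousAt (S.g^[n]) w := (S.g.continuous.iterate n).continuousAt
    have h1 := hc (Metric.ball_mem_nhds _ (half_pos hδ))
    filter_upwards [h1] with w' hw'
    have hw'' : dist (S.g^[n] w') (S.g^[n] w) < δ / 2 := hw'
    have h2 := (hn n le_rfl).dist_le
    have h3 : dist (S.g^[n] w') (S.g^[n] x) ≤ δ := by
      have := dist_triangle (S.g^[n] w') (S.g^[n] w) (S.g^[n] x)
      rw [dist_comm (S.g^[n] w) (S.g^[n] x)] at this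
      linarith
    obtain ⟨v, h4, h5⟩ := hb _ _ h3
    refine ⟨v, hΛ.sat _ (USat.iter hΛ.toUSat hx n) v
      (hG.uasym _ _ (h5.mono (min_le_right _ _))).symm, (h4.mono (min_le_left _ _)).symm⟩
  have hfwd : ∀ m n : ℕ, m ≤ n → ∀ w', (∃ v ∈ Λ, S.SRel (ε / 2) v (S.g^[m] w')) →
      ∃ v ∈ Λ, S.SRel (ε / 2) v (S.g^[n] w') := by
    rintro m n hmn w' ⟨v, hv, hs⟩
    obtain ⟨k, rfl⟩ := Nat.exists_eq_add_of_le hmn
    refine ⟨S.g^[k] v, USat.iter hΛ.toUSat hv k, ?_⟩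
    rw [add_comm m k, Function.iterate_add_apply]
    exact hs.iter k
  obtain ⟨n, hn⟩ := isCompact_univ.elim_directed_cover
    (fun n : ℕ => interior {w' : X | ∃ v ∈ Λ, S.SRel (ε / 2) v (S.g^[n] w')})
    (fun n => isOpen_interior)
    (by
      intro w _
      obtain ⟨n, hn⟩ := key w
      exact Set.mem_iUnion.2 ⟨n, mem_interior_iff_mem_nhds.2 hn⟩)
    (Monotone.directed_le (fun m n hmn => interior_mono (fun w' hw' => hfwd m n hmn w' hw')))
  obtain ⟨v, hv, hs⟩ := interior_subset (hn (Set.mem_univ (S.g.symm^[n] z)))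
  rw [iter_iter_symm] at hs
  refine ⟨v, hv, ?_⟩
  rw [dist_comm]
  have := hs.dist_le
  linarith

end Pool.Agent.Q182.UQ
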